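import Mathlib

/-!
Combinatorial part of the counterexample to the inequality sdepth I ≥ depth I for monomial ideals.

A family `X` of finite sets stands for the simplicial complex of the zero sets of the exponent
vectors of the monomials in the ideal.  `Ler k X` is an inductive sufficient condition for the
ideal to have projective dimension at most `k` (Mayer-Vietoris gluing of simplices).
-/

set_option autoImplicit false

namespace Pool.Agent.Lib.MP_7ffbdd_al

/-- Complexes built from simplices by Mayer-Vietoris gluing. -/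
inductive Ler {σ : Type} : ℕ → Set (Finset σ) → Prop
  | empty : Ler 0 ∅
  | simplex (F : Finset σ) : Ler 0 (Set.Iic F)
  | succ {k : ℕ} {X : Set (Finset σ)} : Ler k X → Ler (k + 1) X
  | union {k : ℕ} {X Y : Set (Finset σ)} :
      Ler (k + 1) X → Ler (k + 1) Y → Ler k (X ∩ Y) → Ler (k + 1) (X ∪ Y)

theorem Ler.isLowerSet {σ : Type} {k : ℕ} {X : Set (Finset σ)} (h : Ler k X) :
    IsLowerSet X := by
  induction h with
  | empty => exact isLowerSet_empty
  | simplex F => exact isLowerSet_Iic F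
  | succ _ ih => exact ih
  | union _ _ _ ih1 ih2 _ => exact ih1.union ih2

theorem Ler.congr {σ : Type} {k : ℕ} {X Y : Set (Finset σ)} (h : Ler k X) (e : X = Y) :
    Ler k Y := e ▸ h

theorem Ler.map {σ τ : Type} (φ : σ ↪ τ) {k : ℕ} {X : Set (Finset σ)} (h : Ler k X) :
    Ler k (Finset.map φ '' X) := by
  induction h with
  | empty => simpa using Ler.empty
  | simplex F =>
    refine (Ler.simplex (F.map φ)).congr ?_
    ext G
    simp only [Set.mem_Iic, Set.mem_image, Finset.subset_map_iff]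
    constructor
    · rintro ⟨u, hu, rfl⟩
      exact ⟨u, hu, rfl⟩
    · rintro ⟨u, hu, rfl⟩
      exact ⟨u, hu, rfl⟩
  | succ _ ih => exact ih.succ
  | union _ _ _ ih1 ih2 ih3 =>
    rw [Set.image_union]
    refine Ler.union ih1 ih2 ?_
    rwa [← Set.image_inter (Finset.map_injective φ)]

theorem Ler.two_simplices {σ : Type} [DecidableEq σ] (F G : Finset σ) :
    Ler 1 (Set.Iic F ∪ Set.Iic G) := by
  refine Ler.union (Ler.simplex F).succ (Ler.simplex G).succ ?_
  rw [Set.Iic_inter_Iic]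
  exact Ler.simplex _

theorem Ler.iUnion {σ ι : Type} [LinearOrder ι] [Fintype ι] (X : ι → Set (Finset σ))
    (h1 : ∀ i, Ler 2 (X i)) (h2 : ∀ i, Ler 1 (X i ∩ ⋃ j, ⋃ (_ : j < i), X j)) :
    Ler 2 (⋃ i, X i) := by
  have key : ∀ s : Finset ι, IsLowerSet (s : Set ι) → Ler 2 (⋃ i, ⋃ (_ : i ∈ s), X i) := by
    intro s
    induction s using Finset.induction_on_max with
    | empty => intro _; simpa using Ler.empty.succ.succ
    | insert a s ha ih =>
      intro hs
      have hmem : ∀ j, j ∈ s ↔ j < a := by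
        intro j
        refine ⟨ha j, fun hj => ?_⟩
        have : j ∈ ((insert a s : Finset ι) : Set ι) := hs hj.le (by simp)
        simp only [Finset.coe_insert, Set.mem_insert_iff, Finset.mem_coe] at this
        rcases this with h | h
        · exact absurd h hj.ne
        · exact h
      have hlow : IsLowerSet (s : Set ι) := by
        intro x y hyx hx
        simp only [Finset.mem_coe, hmem] at hx ⊢
        exact lt_of_le_of_lt hyx hx
      have e : (⋃ i, ⋃ (_ : i ∈ s), X i) = ⋃ j, ⋃ (_ : j < a), X j := by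
        simp only [hmem]
      have := Ler.union (h1 a) (ih hlow) (by rw [e]; exact h2 a)
      refine this.congr ?_
      simp
  have := key Finset.univ (by simpa using isLowerSet_univ)
  simpa using this

/-- The five tetrahedra on six vertices. -/
def X0 : Set (Finset (Fin 6)) :=
  {F | F ⊆ {0, 2, 4, 5} ∨ F ⊆ {0, 3, 4, 5} ∨ F ⊆ {2, 3, 4, 5} ∨ F ⊆ {1, 2, 3, 4} ∨
    F ⊆ {1, 2, 3, 5}}

instance : DecidablePred (· ∈ X0) := fun F => by
  unfold X0; simp only [Set.mem_ofPred_eq]; infer_instance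

/-- `U j` is the set of vertices whose copies are indexed (among others) by coordinate `j`. -/
def U : Fin 3 → Finset (Fin 6) := ![{3, 5}, {0, 3, 4}, {1, 2, 5}]

/-- A face is full if it meets each of the three sets `U j`. -/
def Full (F : Finset (Fin 6)) : Prop := ∀ j : Fin 3, ∃ v ∈ F, v ∈ U j

instance : DecidablePred Full := fun F => by unfold Full; infer_instance

/-- The faces avoiding `U j` for some `j` in `J`. -/
def Y0 (J : Finset (Fin 3)) : Set (Finset (Fin 6)) :=
  {F | F ∈ X0 ∧ ∃ j ∈ J, ∀ v ∈ F, v ∉ U j}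

instance (J : Finset (Fin 3)) : DecidablePred (· ∈ Y0 J) := fun F => by
  unfold Y0; simp only [Set.mem_ofPred_eq]; infer_instance

theorem ler_X0 : Ler 2 X0 := by
  have h1 : Ler 2 (Set.Iic ({0, 2, 4, 5} : Finset (Fin 6)) ∪ Set.Iic {0, 3, 4, 5}) :=
    (Ler.two_simplices _ _).succ
  have h2 : Ler 2 (Set.Iic ({0, 2, 4, 5} : Finset (Fin 6)) ∪ Set.Iic {0, 3, 4, 5} ∪
      Set.Iic {2, 3, 4, 5}) := by
    refine Ler.union h1 (Ler.simplex _).succ.succ
      ((Ler.two_simplices {2, 4, 5} {3, 4, 5}).congr ?_)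
    ext F; revert F; decide +kernel
  have h3 : Ler 2 (Set.Iic ({0, 2, 4, 5} : Finset (Fin 6)) ∪ Set.Iic {0, 3, 4, 5} ∪
      Set.Iic {2, 3, 4, 5} ∪ Set.Iic {1, 2, 3, 4}) := by
    refine Ler.union h2 (Ler.simplex _).succ.succ ((Ler.simplex {2, 3, 4}).succ.congr ?_)
    ext F; revert F; decide +kernel
  have h4 : Ler 2 (Set.Iic ({0, 2, 4, 5} : Finset (Fin 6)) ∪ Set.Iic {0, 3, 4, 5} ∪
      Set.Iic {2, 3, 4, 5} ∪ Set.Iic {1, 2, 3, 4} ∪ Set.Iic {1, 2, 3, 5}) := by
    refine Ler.union h3 (Ler.simplex _).succ.succ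
      ((Ler.two_simplices {2, 3, 5} {1, 2, 3}).congr ?_)
    ext F; revert F; decide +kernel
  refine h4.congr ?_
  ext F; revert F; decide +kernel

theorem ler_Y0 (J : Finset (Fin 3)) : Ler 1 (Y0 J) := by
  have a0 : Ler 1 (Set.Iic ({0, 2, 4} : Finset (Fin 6)) ∪ Set.Iic {1, 2, 4}) :=
    Ler.two_simplices _ _
  have a01 : Ler 1 (Set.Iic ({0, 2, 4} : Finset (Fin 6)) ∪ Set.Iic {1, 2, 4} ∪
      Set.Iic {1, 2, 5}) := by
    refine Ler.union a0 (Ler.simplex _).succ ((Ler.simplex {1, 2}).congr ?_)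
    ext F; revert F; decide +kernel
  have a02 : Ler 1 (Set.Iic ({0, 2, 4} : Finset (Fin 6)) ∪ Set.Iic {1, 2, 4} ∪
      Set.Iic {0, 3, 4}) := by
    refine Ler.union a0 (Ler.simplex _).succ ((Ler.simplex {0, 4}).congr ?_)
    ext F; revert F; decide +kernel
  have a012 : Ler 1 (Set.Iic ({0, 2, 4} : Finset (Fin 6)) ∪ Set.Iic {1, 2, 4} ∪
      Set.Iic {1, 2, 5} ∪ Set.Iic {0, 3, 4}) := by
    refine Ler.union a01 (Ler.simplex _).succ ((Ler.simplex {0, 4}).congr ?_)
    ext F; revert F; decide +kernel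
  have hJ : J = ∅ ∨ J = {0} ∨ J = {1} ∨ J = {2} ∨ J = {0, 1} ∨ J = {0, 2} ∨ J = {1, 2} ∨
      J = {0, 1, 2} := by
    revert J; decide
  rcases hJ with rfl | rfl | rfl | rfl | rfl | rfl | rfl | rfl
  · refine Ler.empty.succ.congr ?_
    ext F; simp [Y0]
  · refine a0.congr ?_
    ext F; revert F; decide +kernel
  · refine (Ler.simplex {1, 2, 5}).succ.congr ?_
    ext F; revert F; decide +kernel
  · refine (Ler.simplex {0, 3, 4}).succ.congr ?_
    ext F; revert F; decide +kernel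
  · refine a01.congr ?_
    ext F; revert F; decide +kernel
  · refine a02.congr ?_
    ext F; revert F; decide +kernel
  · refine (Ler.two_simplices {1, 2, 5} {0, 3, 4}).congr ?_
    ext F; revert F; decide +kernel
  · refine a012.congr ?_
    ext F; revert F; decide +kernel

/-- The relative complex of full faces has no partition into intervals with small bottoms. -/
theorem no_rel_partition (b : Finset (Fin 6) → Finset (Fin 6))
    (hb : ∀ F ∈ X0, Full F → b F ⊆ F ∧ Full (b F) ∧ (b F).card ≤ 2)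
    (hu : ∀ F ∈ X0, Full F → ∀ G ∈ X0, Full G → b F = b G → F ∪ G ∈ X0) : False := by
  have e1 : ∀ R : Finset (Fin 6), R ⊆ {0, 2, 5} ∧ Full R ∧ R.card ≤ 2 → R = {0, 5} := by
    decide +kernel
  have e2 : ∀ R : Finset (Fin 6), R ⊆ {1, 3, 4} ∧ Full R ∧ R.card ≤ 2 → R = {1, 3} := by
    decide +kernel
  have e3 : ∀ R : Finset (Fin 6), R ⊆ {2, 4, 5} ∧ Full R ∧ R.card ≤ 2 → R = {4, 5} := by
    decide +kernel
  have e4 : ∀ R : Finset (Fin 6), R ⊆ {2, 3, 4} ∧ Full R ∧ R.card ≤ 2 → R = {2, 3} := by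
    decide +kernel
  have e5 : ∀ R : Finset (Fin 6), R ⊆ {0, 3, 4, 5} ∧ Full R ∧ R.card ≤ 2 →
      R = {4, 5} ∨ R = {3, 5} ∨ R = {0, 5} := by
    decide +kernel
  have e6 : ∀ R : Finset (Fin 6), R ⊆ {1, 2, 3, 5} ∧ Full R ∧ R.card ≤ 2 →
      R = {3, 5} ∨ R = {2, 3} ∨ R = {1, 3} := by
    decide +kernel
  have b1 := e1 _ (hb {0, 2, 5} (by decide +kernel) (by decide +kernel))
  have b2 := e2 _ (hb {1, 3, 4} (by decide +kernel) (by decide +kernel))
  have b3 := e3 _ (hb {2, 4, 5} (by decide +kernel) (by decide +kernel))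
  have b4 := e4 _ (hb {2, 3, 4} (by decide +kernel) (by decide +kernel))
  have b5 := e5 _ (hb {0, 3, 4, 5} (by decide +kernel) (by decide +kernel))
  have b6 := e6 _ (hb {1, 2, 3, 5} (by decide +kernel) (by decide +kernel))
  have c5 : b {0, 3, 4, 5} = {3, 5} := by
    rcases b5 with h | h | h
    · exact absurd (hu {0, 3, 4, 5} (by decide +kernel) (by decide +kernel) {2, 4, 5}
        (by decide +kernel) (by decide +kernel) (h.trans b3.symm)) (by decide +kernel)
    · exact h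
    · exact absurd (hu {0, 3, 4, 5} (by decide +kernel) (by decide +kernel) {0, 2, 5}
        (by decide +kernel) (by decide +kernel) (h.trans b1.symm)) (by decide +kernel)
  rcases b6 with h | h | h
  · exact absurd (hu {1, 2, 3, 5} (by decide +kernel) (by decide +kernel) {0, 3, 4, 5}
      (by decide +kernel) (by decide +kernel) (h.trans c5.symm)) (by decide +kernel)
  · exact absurd (hu {1, 2, 3, 5} (by decide +kernel) (by decide +kernel) {2, 3, 4}
      (by decide +kernel) (by decide +kernel) (h.trans b4.symm)) (by decide +kernel)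
  · exact absurd (hu {1, 2, 3, 5} (by decide +kernel) (by decide +kernel) {1, 3, 4}
      (by decide +kernel) (by decide +kernel) (h.trans b2.symm)) (by decide +kernel)

section Glue

variable {σ : Type} {N : ℕ} [NeZero N] (φ : (Fin 3 → Fin N) → Fin 6 ↪ σ)

/-- The glued complex: the union of all copies of `X0`. -/
def XG : Set (Finset σ) := ⋃ ω, Finset.map (φ ω) '' X0

/-- The gluing pattern. -/
def Glued : Prop :=
  ∀ ω ω' v v', φ ω v = φ ω' v' ↔ v = v' ∧ ∀ j, v ∈ U j → ω j = ω' j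

variable {φ}

omit [NeZero N] in
theorem Glued.map_subset (h : Glued φ) {ω ω' : Fin 3 → Fin N} {F G : Finset (Fin 6)} :
    F.map (φ ω) ⊆ G.map (φ ω') ↔ F ⊆ G ∧ ∀ v ∈ F, ∀ j, v ∈ U j → ω j = ω' j := by
  constructor
  · intro hs
    have : ∀ v ∈ F, v ∈ G ∧ ∀ j, v ∈ U j → ω j = ω' j := by
      intro v hv
      obtain ⟨w, hw, e⟩ := Finset.mem_map.1 (hs (Finset.mem_map_of_mem (φ ω) hv))
      obtain ⟨rfl, h2⟩ := (h ω ω' v w).1 e.symm
      exact ⟨hw, h2⟩
    exact ⟨fun v hv => (this v hv).1, fun v hv => (this v hv).2⟩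
  · rintro ⟨h1, h2⟩ x hx
    obtain ⟨v, hv, rfl⟩ := Finset.mem_map.1 hx
    exact Finset.mem_map.2 ⟨v, h1 hv, ((h ω ω' v v).2 ⟨rfl, h2 v hv⟩).symm⟩

omit [NeZero N] in
theorem Glued.map_eq (h : Glued φ) {ω ω' : Fin 3 → Fin N} {F : Finset (Fin 6)}
    (h2 : ∀ v ∈ F, ∀ j, v ∈ U j → ω j = ω' j) : F.map (φ ω) = F.map (φ ω') :=
  Finset.Subset.antisymm (h.map_subset.2 ⟨subset_rfl, h2⟩)
    (h.map_subset.2 ⟨subset_rfl, fun v hv j hj => (h2 v hv j hj).symm⟩)

omit [NeZero N] in
theorem Glued.eq_of_full (h : Glued φ) {ω ω' : Fin 3 → Fin N} {F G : Finset (Fin 6)}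
    (hF : Full F) (hs : F.map (φ ω) ⊆ G.map (φ ω')) : ω = ω' := by
  funext j
  obtain ⟨v, hv, hj⟩ := hF j
  exact (h.map_subset.1 hs).2 v hv j hj

theorem Glued.ler (h : Glued φ) : Ler 2 (XG φ) := by
  have := Ler.iUnion (ι := Lex (Fin 3 → Fin N))
    (fun ω => Finset.map (φ (ofLex ω)) '' X0) (fun ω => ler_X0.map _) ?_
  · exact this
  intro ω
  refine ((ler_Y0 (Finset.univ.filter fun j => ofLex ω j ≠ 0)).map (φ (ofLex ω))).congr ?_
  ext G
  simp only [Set.mem_image, Set.mem_inter_iff, Set.mem_iUnion, exists_prop]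
  constructor
  · rintro ⟨F, ⟨hF, j, hj, hv⟩, rfl⟩
    simp only [Finset.mem_filter, Finset.mem_univ, true_and] at hj
    refine ⟨⟨F, hF, rfl⟩, toLex (Function.update (ofLex ω) j 0), ?_, F, hF, ?_⟩
    · have : Function.update (ofLex ω) j 0 < ofLex ω := by
        rw [update_lt_self_iff]
        exact Fin.pos_iff_ne_zero.2 hj
      exact Pi.toLex_strictMono this
    · refine h.map_eq fun v hvF i hi => ?_
      have : i ≠ j := by
        rintro rfl
        exact hv v hvF hi
      simp [Function.update_of_ne this]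
  · rintro ⟨⟨F, hF, rfl⟩, ω', hlt, F', -, e⟩
    have hex : ∃ j, ofLex ω' j < ofLex ω j := by
      by_contra hcon
      push Not at hcon
      have : toLex (ofLex ω) ≤ toLex (ofLex ω') := Pi.toLex_monotone hcon
      exact absurd hlt (not_lt.2 this)
    obtain ⟨j, hj⟩ := hex
    refine ⟨F, ⟨hF, j, ?_, fun v hv hU => ?_⟩, rfl⟩
    · simp only [Finset.mem_filter, Finset.mem_univ, true_and]
      intro h0
      rw [h0] at hj
      exact absurd hj (by simp)
    · have := (h.map_subset.1 e.symm.subset).2 v hv j hU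
      exact absurd this hj.ne'

omit [NeZero N] in
theorem Glued.no_partition (h : Glued φ) (hN : 192 < N) (b t : Finset σ → Finset σ)
    (h1 : ∀ F ∈ XG φ, b F ⊆ F ∧ F ⊆ t F ∧ t F ∈ XG φ ∧ (b F).card ≤ 2)
    (h2 : ∀ F ∈ XG φ, ∀ G ∈ XG φ, b F = b G → t F = t G) : False := by
  have hmem : ∀ ω, ∀ F ∈ X0, F.map (φ ω) ∈ XG φ := fun ω F hF =>
    Set.mem_iUnion.2 ⟨ω, F, hF, rfl⟩
  have hbot : ∀ ω, ∀ F ∈ X0, ∃ R, R ⊆ F ∧ b (F.map (φ ω)) = R.map (φ ω) := fun ω F hF =>
    Finset.subset_map_iff.1 (h1 _ (hmem ω F hF)).1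
  choose! r hr using hbot
  have htop : ∀ ω ω', ∀ F ∈ X0, Full F → ∀ G ∈ X0, Full G →
      b (F.map (φ ω)) = b (G.map (φ ω')) → ω = ω' ∧ F ∪ G ∈ X0 := by
    intro ω ω' F hF fF G hG fG e
    have e' := h2 _ (hmem ω F hF) _ (hmem ω' G hG) e
    obtain ⟨-, s1, s2, -⟩ := h1 _ (hmem ω F hF)
    obtain ⟨-, s3, -, -⟩ := h1 _ (hmem ω' G hG)
    obtain ⟨ω'', T, hT, eT⟩ := Set.mem_iUnion.1 s2
    rw [← e', ← eT] at s3
    rw [← eT] at s1
    refine ⟨(h.eq_of_full fF s1).trans (h.eq_of_full fG s3).symm, ?_⟩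
    exact ler_X0.isLowerSet
      (Finset.union_subset (h.map_subset.1 s1).1 (h.map_subset.1 s3).1) hT
  have hgood : ∃ ω, ∀ F ∈ X0, Full F → Full (r ω F) := by
    by_contra hcon
    push Not at hcon
    choose F hF fF hnot using hcon
    simp only [Full, not_forall, not_exists, not_and] at hnot
    choose j hj using hnot
    let g : (Fin 3 → Fin N) → Finset (Fin 6) × Fin 3 × (Fin 2 → Fin N) :=
      fun ω => (r ω (F ω), j ω, Fin.removeNth (j ω) ω)
    have hcard : Fintype.card (Finset (Fin 6) × Fin 3 × (Fin 2 → Fin N)) <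
        Fintype.card (Fin 3 → Fin N) := by
      simp only [Fintype.card_prod, Fintype.card_finset, Fintype.card_fin, Fintype.card_pi,
        Finset.prod_const, Finset.card_univ]
      have : 0 < N ^ 2 := by positivity
      nlinarith [this, hN]
    obtain ⟨ω, ω', hne, e⟩ := Fintype.exists_ne_map_eq_of_card_lt g hcard
    simp only [g, Prod.mk.injEq] at e
    obtain ⟨e1, e2, e3⟩ := e
    apply hne
    refine (htop ω ω' (F ω) (hF ω) (fF ω) (F ω') (hF ω') (fF ω') ?_).1
    rw [(hr ω _ (hF ω)).2, (hr ω' _ (hF ω')).2, ← e1]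
    refine h.map_eq fun v hv i hi => ?_
    have hij : i ≠ j ω := by
      rintro rfl
      exact hj ω v hv hi
    obtain ⟨k, rfl⟩ := Fin.exists_succAbove_eq hij
    have := congrFun e3 k
    simpa [Fin.removeNth, ← e2] using this
  obtain ⟨ω, hω⟩ := hgood
  refine no_rel_partition (r ω) (fun F hF fF => ⟨(hr ω F hF).1, hω F hF fF, ?_⟩)
    (fun F hF fF G hG fG e => ?_)
  · have := (h1 _ (hmem ω F hF)).2.2.2
    rwa [(hr ω F hF).2, Finset.card_map] at this
  · refine (htop ω ω F hF fF G hG fG ?_).2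
    rw [(hr ω F hF).2, (hr ω G hG).2, e]

end Glue

/-- A concrete gluing pattern. -/
def phi0 (N : ℕ) [NeZero N] (ω : Fin 3 → Fin N) : Fin 6 ↪ Fin 6 × (Fin 3 → Fin N) :=
  ⟨fun v => (v, fun j => if v ∈ U j then ω j else 0), fun _ _ e => congrArg Prod.fst e⟩

theorem glued_phi0 {σ : Type} (N : ℕ) [NeZero N] (e : (Fin 6 × (Fin 3 → Fin N)) ↪ σ) :
    Glued (fun ω => (phi0 N ω).trans e) := by
  intro ω ω' v v'
  simp only [Function.Embedding.trans_apply, EmbeddingLike.apply_eq_iff_eq]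
  change ((v, fun j => if v ∈ U j then ω j else 0) : Fin 6 × (Fin 3 → Fin N)) =
    (v', fun j => if v' ∈ U j then ω' j else 0) ↔ _
  rw [Prod.mk.injEq]
  constructor
  · rintro ⟨rfl, h⟩
    refine ⟨rfl, fun j hj => ?_⟩
    have := congrFun h j
    simpa [hj] using this
  · rintro ⟨rfl, h⟩
    refine ⟨rfl, ?_⟩
    funext j
    by_cases hj : v ∈ U j
    · simp [hj, h j hj]
    · simp [hj]

end Pool.Agent.Lib.MP_7ffbdd_al
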