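import Pool.Agent.Lib.MP_7ffbdd_al.Comb

/-!
Algebraic part: the monomial ideal of a complex built by Mayer-Vietoris gluing has large depth.
Depth is measured by the vanishing of Ext groups and turned into a regular sequence by the
theorem of Rees.
-/

set_option autoImplicit false

namespace Pool.Agent.Lib.MP_7ffbdd_al

open CategoryTheory CategoryTheory.Abelian MvPolynomial

section Ses

variable {R : Type} [CommRing R] (N : ModuleCat.{0} R)
variable {A B C : Type} [AddCommGroup A] [AddCommGroup B] [AddCommGroup C]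
  [Module R A] [Module R B] [Module R C]

theorem ext_mid (f : A →ₗ[R] B) (g : B →ₗ[R] C) (hf : Function.Injective f)
    (hg : Function.Surjective g) (hex : Function.Exact f g) (i : ℕ)
    (hA : Subsingleton (Ext N (ModuleCat.of R A) i))
    (hC : Subsingleton (Ext N (ModuleCat.of R C) i)) :
    Subsingleton (Ext N (ModuleCat.of R B) i) := by
  let S := ModuleCat.shortComplexOfCompEqZero f g hex.linearMap_comp_eq_zero
  have hS : S.ShortExact := ModuleCat.shortComplex_shortExact S hex hf hg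
  refine subsingleton_of_forall_eq 0 fun x => ?_
  obtain ⟨y, hy⟩ := Ext.covariant_sequence_exact₂ N hS x (@Subsingleton.elim _ hC _ _)
  rw [← hy, @Subsingleton.elim _ hA y 0, Ext.zero_comp]

theorem ext_right (f : A →ₗ[R] B) (g : B →ₗ[R] C) (hf : Function.Injective f)
    (hg : Function.Surjective g) (hex : Function.Exact f g) (i : ℕ)
    (hB : Subsingleton (Ext N (ModuleCat.of R B) i))
    (hA : Subsingleton (Ext N (ModuleCat.of R A) (i + 1))) :
    Subsingleton (Ext N (ModuleCat.of R C) i) := by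
  let S := ModuleCat.shortComplexOfCompEqZero f g hex.linearMap_comp_eq_zero
  have hS : S.ShortExact := ModuleCat.shortComplex_shortExact S hex hf hg
  refine subsingleton_of_forall_eq 0 fun x => ?_
  obtain ⟨y, hy⟩ := Ext.covariant_sequence_exact₃ N hS x rfl (@Subsingleton.elim _ hA _ _)
  rw [← hy, @Subsingleton.elim _ hB y 0, Ext.zero_comp]

theorem ext_zero [Subsingleton A] (i : ℕ) : Subsingleton (Ext N (ModuleCat.of R A) i) := by
  refine subsingleton_of_forall_eq 0 fun x => ?_
  have h0 : 𝟙 (ModuleCat.of R A) = 0 := by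
    ext a
    exact Subsingleton.elim _ _
  rw [← Ext.comp_mk₀_id x, h0, Ext.mk₀_zero, Ext.comp_zero]

theorem ext_equiv (e : A ≃ₗ[R] B) (i : ℕ) (hA : Subsingleton (Ext N (ModuleCat.of R A) i)) :
    Subsingleton (Ext N (ModuleCat.of R B) i) := by
  refine ext_mid N e.toLinearMap (0 : B →ₗ[R] PUnit) e.injective
    (fun _ => ⟨0, Subsingleton.elim _ _⟩) ?_ i hA (ext_zero N i)
  intro y
  simp only [LinearMap.zero_apply, Set.mem_range, true_iff]
  exact e.surjective y

theorem ext_sup (I J : Ideal R) (i : ℕ)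
    (hI : Subsingleton (Ext N (ModuleCat.of R I) i))
    (hJ : Subsingleton (Ext N (ModuleCat.of R J) i))
    (hIJ : Subsingleton (Ext N (ModuleCat.of R (I ⊓ J : Ideal R)) (i + 1))) :
    Subsingleton (Ext N (ModuleCat.of R (I ⊔ J : Ideal R)) i) := by
  have hP : Subsingleton (Ext N (ModuleCat.of R (I × J)) i) :=
    ext_mid N (LinearMap.inl R I J) (LinearMap.snd R I J) LinearMap.inl_injective
      LinearMap.snd_surjective Function.Exact.inl_snd i hI hJ
  let f : (I ⊓ J : Ideal R) →ₗ[R] I × J :=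
    LinearMap.prod (Submodule.inclusion inf_le_left) (-Submodule.inclusion inf_le_right)
  let g : I × J →ₗ[R] (I ⊔ J : Ideal R) :=
    LinearMap.coprod (Submodule.inclusion le_sup_left) (Submodule.inclusion le_sup_right)
  refine ext_right N f g ?_ ?_ ?_ i hP hIJ
  · intro x y h
    have := congrArg Prod.fst h
    exact Submodule.inclusion_injective _ this
  · rintro ⟨x, hx⟩
    obtain ⟨a, ha, b, hb, rfl⟩ := Submodule.mem_sup.1 hx
    exact ⟨(⟨a, ha⟩, ⟨b, hb⟩), rfl⟩
  · rintro ⟨⟨a, ha⟩, ⟨b, hb⟩⟩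
    constructor
    · intro h
      have h' : a + b = 0 := congrArg Subtype.val h
      have hb' : b = -a := by linear_combination h'
      subst hb'
      refine ⟨⟨a, ha, by simpa using hb⟩, ?_⟩
      ext <;> simp [f]
    · rintro ⟨⟨c, hc⟩, h⟩
      have h1 : c = a := congrArg (fun p : I × J => (p.1 : R)) h
      have h2 : -c = b := congrArg (fun p : I × J => (p.2 : R)) h
      apply Subtype.ext
      change a + b = 0
      rw [← h1, ← h2, add_neg_cancel]

end Ses

section Poly

variable {σ : Type} (K : Type) [Field K]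

theorem X_mul_mem_span {s : Set σ} {j : σ} (hj : j ∉ s) {f : MvPolynomial σ K}
    (h : X j * f ∈ Ideal.span (X '' s : Set (MvPolynomial σ K))) :
    f ∈ Ideal.span (X '' s : Set (MvPolynomial σ K)) := by
  classical
  rw [mem_ideal_span_X_image] at h ⊢
  intro m hm
  have : Finsupp.single j 1 + m ∈ (X j * f).support := by
    rw [mem_support_iff, coeff_X_mul]
    exact mem_support_iff.1 hm
  obtain ⟨i, hi, h2⟩ := h _ this
  refine ⟨i, hi, ?_⟩
  have hij : j ≠ i := by
    rintro rfl
    exact hj hi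
  simpa [Finsupp.single_apply, hij] using h2

theorem idealOfVars_ne_top : idealOfVars σ K ≠ ⊤ := by
  intro h
  have h1 : (1 : MvPolynomial σ K) ∈ Ideal.span (X '' (Set.univ : Set σ)) := by
    rw [Set.image_univ]
    change (1 : MvPolynomial σ K) ∈ idealOfVars σ K
    rw [h]; trivial
  rw [mem_ideal_span_X_image] at h1
  obtain ⟨i, -, hi⟩ := h1 0 (by simp)
  simp at hi

theorem constantCoeff_eq_zero {f : MvPolynomial σ K} (h : f ∈ idealOfVars σ K) :
    constantCoeff f = 0 := by
  have : idealOfVars σ K ≤ RingHom.ker (constantCoeff (σ := σ) (R := K)) := by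
    rw [Ideal.span_le]
    rintro _ ⟨i, rfl⟩
    simp
  exact this h

theorem isRegular_vars (l : List σ) (hl : l.Nodup) :
    RingTheory.Sequence.IsRegular (MvPolynomial σ K) (l.map X : List (MvPolynomial σ K)) := by
  have key : ∀ m : List σ, (Ideal.ofList (m.map X : List (MvPolynomial σ K)) • ⊤ :
      Submodule (MvPolynomial σ K) (MvPolynomial σ K)) =
      Ideal.span (X '' {i | i ∈ m} : Set (MvPolynomial σ K)) := by
    intro m
    rw [smul_eq_mul, Ideal.mul_top, Ideal.ofList]
    congr 1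
    ext x
    simp
  refine ⟨⟨fun i hi => ?_⟩, ?_⟩
  · rw [← List.map_take, key, List.getElem_map]
    have hi' : i < l.length := by simpa using hi
    rw [isSMulRegular_quotient_iff_mem_of_smul_mem]
    intro f hf
    refine X_mul_mem_span K ?_ hf
    simp only [Set.mem_ofPred_eq]
    intro hmem
    obtain ⟨k, hk, e⟩ := List.mem_iff_getElem.1 hmem
    rw [List.getElem_take] at e
    have := (List.Nodup.getElem_inj_iff hl).1 e
    simp only [List.length_take] at hk
    omega
  · rw [key]
    intro h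
    apply idealOfVars_ne_top (σ := σ) K
    rw [eq_top_iff, h]
    exact Ideal.span_mono (Set.image_subset_range _ _)

variable [Fintype σ] [DecidableEq σ]

/-- The residue field as a module. -/
noncomputable abbrev resMod : ModuleCat.{0} (MvPolynomial σ K) :=
  ModuleCat.of (MvPolynomial σ K) (MvPolynomial σ K ⧸ idealOfVars σ K)

omit [Fintype σ] [DecidableEq σ] in
theorem support_resMod :
    Module.support (MvPolynomial σ K) (resMod (σ := σ) K) =
      PrimeSpectrum.zeroLocus (idealOfVars σ K) := by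
  rw [Module.support_eq_zeroLocus, Ideal.annihilator_quotient]

omit [DecidableEq σ] in
theorem ext_ring (i : ℕ) (hi : i < Fintype.card σ) :
    Subsingleton (Ext (resMod (σ := σ) K)
      (ModuleCat.of (MvPolynomial σ K) (MvPolynomial σ K)) i) := by
  refine ModuleCat.subsingleton_ext_of_exists_isRegular (idealOfVars σ K) _
    (support_resMod K).subset _ ?_ ((Finset.univ : Finset σ).toList.map X) ?_
    (isRegular_vars K _ (Finset.nodup_toList _)) i (by simpa using hi)
  · change idealOfVars σ K • (⊤ : Submodule (MvPolynomial σ K) (MvPolynomial σ K)) < ⊤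
    rw [smul_eq_mul, Ideal.mul_top]
    exact (idealOfVars_ne_top K).lt_top
  · intro r hr
    obtain ⟨j, -, rfl⟩ := List.mem_map.1 hr
    exact Ideal.subset_span ⟨j, rfl⟩

/-- The monomial ideal spanned by the monomials whose set of missing variables lies in `Δ`. -/
noncomputable def cxIdeal (Δ : Set (Finset σ)) : Ideal (MvPolynomial σ K) :=
  Ideal.span ((fun a => monomial a (1 : K)) '' {a : σ →₀ ℕ | a.supportᶜ ∈ Δ})

theorem mem_cxIdeal {Δ : Set (Finset σ)} (hΔ : IsLowerSet Δ) {f : MvPolynomial σ K} :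
    f ∈ cxIdeal K Δ ↔ ∀ a ∈ f.support, a.supportᶜ ∈ Δ := by
  rw [cxIdeal, mem_ideal_span_monomial_image]
  refine forall₂_congr fun a _ => ⟨?_, fun h => ⟨a, h, le_rfl⟩⟩
  rintro ⟨s, hs, hle⟩
  exact hΔ (Finset.compl_subset_compl.2 (Finsupp.support_mono hle)) hs

theorem monomial_mem_cxIdeal {Δ : Set (Finset σ)} (hΔ : IsLowerSet Δ) {a : σ →₀ ℕ} :
    monomial a (1 : K) ∈ cxIdeal K Δ ↔ a.supportᶜ ∈ Δ := by
  classical
  rw [mem_cxIdeal K hΔ, support_monomial]
  simp

theorem cxIdeal_union (Δ Γ : Set (Finset σ)) :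
    cxIdeal K (Δ ∪ Γ) = cxIdeal K Δ ⊔ cxIdeal K Γ := by
  rw [cxIdeal, cxIdeal, cxIdeal, ← Ideal.span_union, ← Set.image_union]
  rfl

theorem cxIdeal_inter {Δ Γ : Set (Finset σ)} (hΔ : IsLowerSet Δ) (hΓ : IsLowerSet Γ) :
    cxIdeal K (Δ ∩ Γ) = cxIdeal K Δ ⊓ cxIdeal K Γ := by
  ext f
  rw [Ideal.mem_inf, mem_cxIdeal K hΔ, mem_cxIdeal K hΓ, mem_cxIdeal K (hΔ.inter hΓ)]
  exact ⟨fun h => ⟨fun a ha => (h a ha).1, fun a ha => (h a ha).2⟩,
    fun h a ha => ⟨h.1 a ha, h.2 a ha⟩⟩

theorem cxIdeal_empty : cxIdeal K (∅ : Set (Finset σ)) = ⊥ := by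
  simp [cxIdeal]

/-- The exponent vector of the product of the variables outside `F`. -/
noncomputable def coInd (F : Finset σ) : σ →₀ ℕ :=
  Finsupp.equivFunOnFinite.symm fun i => if i ∈ F then 0 else 1

@[simp] theorem coInd_apply (F : Finset σ) (i : σ) : coInd F i = if i ∈ F then 0 else 1 := rfl

theorem coInd_support (F : Finset σ) : (coInd F).supportᶜ = F := by
  ext i
  simp

theorem cxIdeal_Iic (F : Finset σ) :
    cxIdeal K (Set.Iic F) = Ideal.span {monomial (coInd F) (1 : K)} := by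
  ext f
  rw [mem_cxIdeal K (isLowerSet_Iic F), ← Set.image_singleton (f := fun a => monomial a (1 : K)),
    mem_ideal_span_monomial_image]
  refine forall₂_congr fun a _ => ?_
  simp only [Set.mem_Iic, Set.mem_singleton_iff, exists_eq_left]
  constructor
  · intro h i
    rw [coInd_apply]
    split_ifs with hi
    · exact Nat.zero_le _
    · by_contra hlt
      exact hi (h (by simp; omega))
  · intro h i hi
    by_contra hF
    have := h i
    simp [hF] at this hi
    omega

theorem ext_cxIdeal {k : ℕ} {Δ : Set (Finset σ)} (h : Ler k Δ) :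
    ∀ i, i + k < Fintype.card σ → Subsingleton (Ext (resMod (σ := σ) K)
      (ModuleCat.of (MvPolynomial σ K) (cxIdeal K Δ)) i) := by
  induction h with
  | empty =>
    intro i _
    rw [cxIdeal_empty]
    exact ext_zero _ i
  | simplex F =>
    intro i hi
    rw [cxIdeal_Iic]
    refine ext_equiv _ (LinearEquiv.toSpanNonzeroSingleton (MvPolynomial σ K) (MvPolynomial σ K)
      (monomial (coInd F) (1 : K)) (by simp)) i (ext_ring K i (by omega))
  | succ _ ih => exact fun i hi => ih i (by omega)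
  | union h1 h2 _ ih1 ih2 ih3 =>
    intro i hi
    rw [cxIdeal_union]
    refine ext_sup _ _ _ i (ih1 i hi) (ih2 i hi) ?_
    rw [← cxIdeal_inter K h1.isLowerSet h2.isLowerSet]
    exact ih3 (i + 1) (by omega)

omit [DecidableEq σ] in
theorem smul_top_lt_top (I : Ideal (MvPolynomial σ K)) (hI : I ≠ ⊥) :
    idealOfVars σ K • (⊤ : Submodule (MvPolynomial σ K) I) < ⊤ := by
  rw [lt_top_iff_ne_top]
  intro h
  have hfg : (⊤ : Submodule (MvPolynomial σ K) I).FG := Module.Finite.fg_top
  obtain ⟨r, hr1, hr2⟩ :=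
    Submodule.exists_sub_one_mem_and_smul_eq_zero_of_fg_of_le_smul _ _ hfg h.ge
  obtain ⟨x, hx, hx0⟩ := Submodule.exists_mem_ne_zero_of_ne_bot hI
  have h3 : r * x = 0 := congrArg Subtype.val (hr2 ⟨x, hx⟩ trivial)
  have h4 : r = 0 := (mul_eq_zero.1 h3).resolve_right hx0
  have := constantCoeff_eq_zero K hr1
  simp [h4] at this

theorem exists_regular {k : ℕ} {Δ : Set (Finset σ)} (h : Ler k Δ) (hI : cxIdeal K Δ ≠ ⊥) :
    ∃ rs : List (MvPolynomial σ K), rs.length = Fintype.card σ - k ∧
      (∀ r ∈ rs, constantCoeff r = 0) ∧ RingTheory.Sequence.IsRegular (cxIdeal K Δ) rs := by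
  obtain ⟨rs, h1, h2, h3⟩ := ModuleCat.exists_isRegular_of_exists_subsingleton_ext
    (idealOfVars σ K) (Fintype.card σ - k) (ModuleCat.of (MvPolynomial σ K) (cxIdeal K Δ))
    (smul_top_lt_top K _ hI) (resMod K) (support_resMod K)
    (fun i hi => ext_cxIdeal K h i (by omega))
  exact ⟨rs, h1, fun r hr => constantCoeff_eq_zero K (h2 r hr), h3⟩

/-- A Stanley decomposition gives a partition of the complex into intervals. -/
theorem intervals_of_decomposition {Δ : Set (Finset σ)} (hΔ : IsLowerSet Δ) (k : ℕ)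
    (D : Finset ((σ →₀ ℕ) × Finset σ))
    (h1 : ∀ p ∈ D, Fintype.card σ - k ≤ p.2.card)
    (h2 : ∀ p ∈ D, ∀ b : σ →₀ ℕ, b.support ⊆ p.2 → monomial (p.1 + b) (1 : K) ∈ cxIdeal K Δ)
    (h3 : ∀ a : σ →₀ ℕ, monomial a (1 : K) ∈ cxIdeal K Δ →
      ∃! p, p ∈ D ∧ ∃ b : σ →₀ ℕ, b.support ⊆ p.2 ∧ a = p.1 + b) :
    ∃ b t : Finset σ → Finset σ,
      (∀ F ∈ Δ, b F ⊆ F ∧ F ⊆ t F ∧ t F ∈ Δ ∧ (b F).card ≤ k) ∧
      ∀ F ∈ Δ, ∀ G ∈ Δ, b F = b G → t F = t G := by
  have hex : ∀ F ∈ Δ, ∃ p, p ∈ D ∧ ∃ b : σ →₀ ℕ, b.support ⊆ p.2 ∧ coInd F = p.1 + b := by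
    intro F hF
    exact (h3 (coInd F) ((monomial_mem_cxIdeal K hΔ).2 (by rwa [coInd_support]))).exists
  choose! p hpD c hc hp using hex
  have hval : ∀ F ∈ Δ, ∀ i, (if i ∈ F then 0 else 1) = (p F).1 i + c F i := by
    intro F hF i
    have := DFunLike.congr_fun (hp F hF) i
    simpa using this
  have hA : ∀ F ∈ Δ, ((p F).1.support ∪ (p F).2)ᶜ ⊆ F := by
    intro F hF i hi
    simp only [Finset.mem_compl, Finset.mem_union, not_or, Finsupp.mem_support_iff,
      not_not] at hi
    by_contra hiF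
    have e := hval F hF i
    have : c F i = 0 := by
      by_contra h0
      exact hi.2 (hc F hF (Finsupp.mem_support_iff.2 h0))
    simp [hiF, hi.1, this] at e
  have hB : ∀ F ∈ Δ, ∃ b : σ →₀ ℕ, b.support ⊆ (p F).2 ∧
      coInd (((p F).1.support ∪ (p F).2)ᶜ) = (p F).1 + b := by
    intro F hF
    refine ⟨coInd (((p F).1.support ∪ (p F).2)ᶜ) - (p F).1, ?_, ?_⟩
    · intro i hi
      simp only [Finsupp.mem_support_iff, Finsupp.coe_tsub, Pi.sub_apply, coInd_apply,
        Finset.mem_compl, Finset.mem_union] at hi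
      by_contra hZ
      by_cases h0 : (p F).1 i = 0
      · simp [h0, hZ] at hi
      · simp [h0] at hi
        omega
    · ext i
      have e := hval F hF i
      simp only [coInd_apply, Finset.mem_compl, Finset.mem_union, Finsupp.mem_support_iff,
        Finsupp.coe_add, Finsupp.coe_tsub, Pi.add_apply, Pi.sub_apply]
      by_cases h0 : (p F).1 i = 0
      · simp [h0]
      · simp only [ne_eq, h0, not_false_eq_true, true_or, not_true_eq_false, ↓reduceIte]
        split_ifs at e <;> omega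
  refine ⟨fun F => ((p F).1.support ∪ (p F).2)ᶜ, fun F => (p F).1.supportᶜ,
    fun F hF => ⟨hA F hF, ?_, ?_, ?_⟩, fun F hF G hG e => ?_⟩
  · intro i hi
    have e := hval F hF i
    simp only [hi, ↓reduceIte] at e
    simp only [Finset.mem_compl, Finsupp.mem_support_iff, not_not]
    omega
  · have := h2 (p F) (hpD F hF) 0 (by simp)
    rwa [add_zero, monomial_mem_cxIdeal K hΔ] at this
  · have e1 := h1 (p F) (hpD F hF)
    have e2 : (p F).2.card ≤ ((p F).1.support ∪ (p F).2).card :=
      Finset.card_le_card Finset.subset_union_right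
    rw [Finset.card_compl]
    omega
  · have hmem : monomial (coInd (((p F).1.support ∪ (p F).2)ᶜ)) (1 : K) ∈ cxIdeal K Δ :=
      (monomial_mem_cxIdeal K hΔ).2 (by rw [coInd_support]; exact hΔ (hA F hF) hF)
    have e' : ((p F).1.support ∪ (p F).2)ᶜ = ((p G).1.support ∪ (p G).2)ᶜ := e
    have := (h3 _ hmem).unique ⟨hpD F hF, hB F hF⟩ ⟨hpD G hG, e' ▸ hB G hG⟩
    simp only [this]

end Poly

end Pool.Agent.Lib.MP_7ffbdd_al
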