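import Pool.Agent.Lib.MP_7ffbdd_al.Pdim

/-!
Joins of copies of the glued complex: the Leray numbers add, and a counting argument shows that
the bottoms of a partition into intervals must be much larger.
-/

set_option autoImplicit false

namespace Pool.Agent.Lib.MP_7ffbdd_al

theorem Ler.empty_of {σ : Type} (l : ℕ) : Ler l (∅ : Set (Finset σ)) := by
  induction l with
  | zero => exact Ler.empty
  | succ l ih => exact ih.succ

theorem Ler.simplex_inter {σ : Type} [DecidableEq σ] (A : Finset σ) {l : ℕ}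
    {Y : Set (Finset σ)} (h : Ler l Y) : Ler l (Set.Iic A ∩ Y) := by
  induction h with
  | empty => simpa using Ler.empty
  | simplex F => rw [Set.Iic_inter_Iic]; exact Ler.simplex _
  | succ _ ih => exact ih.succ
  | union _ _ _ ih1 ih2 ih3 =>
    rw [Set.inter_union_distrib_left]
    refine Ler.union ih1 ih2 (ih3.congr ?_)
    ext F
    simp only [Set.mem_inter_iff]
    tauto

theorem Ler.inter {σ : Type} [DecidableEq σ] {k l : ℕ} {X Y : Set (Finset σ)} (hX : Ler k X)
    (hY : Ler l Y) : Ler (l + k) (X ∩ Y) := by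
  induction hX with
  | empty => simpa using Ler.empty_of l
  | simplex F => exact hY.simplex_inter F
  | succ _ ih => exact ih.succ
  | union _ _ _ ih1 ih2 ih3 =>
    rw [Set.union_inter_distrib_right]
    refine Ler.union ih1 ih2 (ih3.congr ?_)
    ext F
    simp only [Set.mem_inter_iff]
    tauto

section Fib

variable {σ τ : Type} [Fintype σ] [DecidableEq σ] [Fintype τ] [DecidableEq τ]

/-- The preimage of a finite set. -/
def fib (f : σ → τ) (G : Finset τ) : Finset σ := Finset.univ.filter fun s => f s ∈ G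

omit [DecidableEq σ] [Fintype τ] in
theorem mem_fib {f : σ → τ} {G : Finset τ} {s : σ} : s ∈ fib f G ↔ f s ∈ G := by simp [fib]

theorem Ler.comap (f : σ → τ) {k : ℕ} {X : Set (Finset σ)} (h : Ler k X) :
    Ler k {G : Finset τ | fib f G ∈ X} := by
  induction h with
  | empty => simpa using Ler.empty
  | simplex A =>
    refine (Ler.simplex (Finset.univ.filter fun t => ∀ s, f s = t → s ∈ A)).congr ?_
    ext G
    simp only [Set.mem_Iic, Finset.subset_iff, Finset.mem_filter,
      Finset.mem_univ, true_and, Set.mem_ofPred_eq, mem_fib]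
    exact ⟨fun h s hs => h hs s rfl, fun h t ht s e => h (e ▸ ht)⟩
  | succ _ ih => exact ih.succ
  | union _ _ _ ih1 ih2 ih3 => exact Ler.union ih1 ih2 ih3

theorem Ler.pow {ι : Type} [DecidableEq ι] (e : ι → σ → τ) {k : ℕ} {X : Set (Finset σ)}
    (h : Ler k X) (s : Finset ι) :
    Ler (k * s.card) {G : Finset τ | ∀ i ∈ s, fib (e i) G ∈ X} := by
  induction s using Finset.induction_on with
  | empty =>
    refine (Ler.simplex Finset.univ).congr ?_
    ext G
    simp
  | insert a s ha ih =>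
    rw [Finset.card_insert_of_notMem ha, Nat.mul_succ]
    refine ((h.comap (e a)).inter ih).congr ?_
    ext G
    simp

end Fib

/-- Six full faces, no two of which lie in one interval of full faces. -/
def dem : Fin 6 → Finset (Fin 6) :=
  ![{0, 2, 5}, {1, 3, 4}, {2, 4, 5}, {2, 3, 4}, {0, 3, 4, 5}, {1, 2, 3, 5}]

theorem dem_mem : ∀ a, dem a ∈ X0 ∧ Full (dem a) ∧ (dem a).card ≤ 4 := by decide +kernel

theorem dem_inj : ∀ a a', ∀ R : Finset (Fin 6), Full R → R ⊆ dem a → R ⊆ dem a' →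
    dem a ∪ dem a' ∈ X0 → a = a' := by decide +kernel

/-- The weight of a possible bottom. -/
def wt (R : Finset (Fin 6)) : ℕ := if Full R ∧ ∃ a, R ⊆ dem a then 50 ^ (4 - R.card) else 0

theorem sum_wt : ∑ R, wt R = 13002 := by decide +kernel

section Glue

variable {σ : Type} {N : ℕ} {φ : (Fin 3 → Fin N) → Fin 6 ↪ σ}

theorem Glued.count (h : Glued φ) {m K : ℕ} (hN : 64 ^ m * (m * 3) < N)
    (b t : (Fin m → Finset σ) → Fin m → Finset σ)
    (h1 : ∀ T, (∀ i, T i ∈ XG φ) →
      (∀ i, b T i ⊆ T i ∧ T i ⊆ t T i ∧ t T i ∈ XG φ) ∧ ∑ i, (b T i).card ≤ K)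
    (h2 : ∀ T, (∀ i, T i ∈ XG φ) → ∀ T', (∀ i, T' i ∈ XG φ) → b T = b T' → t T = t T') :
    6 ^ m * 50 ^ (4 * m - K) ≤ 13002 ^ m := by
  classical
  let P : (Fin m → Fin 3 → Fin N) → (Fin m → Fin 6) → Fin m → Finset σ :=
    fun ω a i => (dem (a i)).map (φ (ω i))
  have hmem : ∀ ω a i, P ω a i ∈ XG φ := fun ω a i =>
    Set.mem_iUnion.2 ⟨ω i, dem (a i), (dem_mem _).1, rfl⟩
  have hbot : ∀ ω a i, ∃ R, R ⊆ dem (a i) ∧ b (P ω a) i = R.map (φ (ω i)) := fun ω a i =>
    Finset.subset_map_iff.1 ((h1 _ (hmem ω a)).1 i).1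
  choose r hr using hbot
  have htop : ∀ ω ω' a a', b (P ω a) = b (P ω' a') →
      ∀ i, ω i = ω' i ∧ dem (a i) ∪ dem (a' i) ∈ X0 := by
    intro ω ω' a a' e i
    have e' := h2 _ (hmem ω a) _ (hmem ω' a') e
    obtain ⟨-, s1, s2⟩ := (h1 _ (hmem ω a)).1 i
    obtain ⟨-, s3, -⟩ := (h1 _ (hmem ω' a')).1 i
    obtain ⟨ω'', T, hT, eT⟩ := Set.mem_iUnion.1 s2
    rw [← e', ← eT] at s3
    rw [← eT] at s1
    refine ⟨(h.eq_of_full (dem_mem _).2.1 s1).trans (h.eq_of_full (dem_mem _).2.1 s3).symm, ?_⟩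
    exact ler_X0.isLowerSet
      (Finset.union_subset (h.map_subset.1 s1).1 (h.map_subset.1 s3).1) hT
  have hgood : ∃ ω, ∀ a i, Full (r ω a i) := by
    by_contra hcon
    push Not at hcon
    choose a i hnot using hcon
    simp only [Full, not_forall, not_exists, not_and] at hnot
    choose j hj using hnot
    let g : (Fin m → Fin 3 → Fin N) × Fin N →
        (Fin m → Finset (Fin 6)) × (Fin m × Fin 3) × (Fin m → Fin 3 → Fin N) :=
      fun q => (r q.1 (a q.1), (i q.1, j q.1),
        fun i' j' => if i' = i q.1 ∧ j' = j q.1 then q.2 else q.1 i' j')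
    have hg : Function.Injective g := by
      rintro ⟨ω, c⟩ ⟨ω', c'⟩ e
      simp only [g, Prod.mk.injEq] at e
      obtain ⟨e1, ⟨e2, e3⟩, e4⟩ := e
      have hc : c = c' := by
        have := congrFun (congrFun e4 (i ω)) (j ω)
        simpa [e2, e3] using this
      have hb : b (P ω (a ω)) = b (P ω' (a ω')) := by
        funext i'
        rw [(hr ω _ i').2, (hr ω' _ i').2, ← e1]
        refine h.map_eq fun v hv j' hj' => ?_
        have hne : ¬ (i' = i ω ∧ j' = j ω) := by
          rintro ⟨rfl, rfl⟩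
          exact hj ω v hv hj'
        have := congrFun (congrFun e4 i') j'
        rw [← e2, ← e3] at this
        simpa [hne] using this
      exact Prod.ext (funext fun i' => (htop ω ω' _ _ hb i').1) hc
    have hcard := Fintype.card_le_of_injective g hg
    have hpos : 0 < Fintype.card (Fin m → Fin 3 → Fin N) := by
      have : Nonempty (Fin N) := ⟨⟨0, by omega⟩⟩
      exact Fintype.card_pos
    rw [Fintype.card_prod, Fintype.card_prod, Fintype.card_prod, Fintype.card_prod,
      Fintype.card_fun (α := Fin m) (β := Finset (Fin 6))] at hcard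
    simp only [Fintype.card_fin, Fintype.card_finset] at hcard
    have : (2 ^ 6) ^ m = 64 ^ m := by norm_num
    rw [this, ← mul_assoc, mul_comm _ N] at hcard
    exact absurd (Nat.le_of_mul_le_mul_right hcard hpos) (not_le.2 hN)
  obtain ⟨ω, hω⟩ := hgood
  have hinj : Function.Injective (r ω) := by
    intro a a' e
    have hb : b (P ω a) = b (P ω a') := by
      funext i
      rw [(hr ω a i).2, (hr ω a' i).2, e]
    funext i
    exact dem_inj _ _ (r ω a i) (hω a i) (hr ω a i).1 (e ▸ (hr ω a' i).1) (htop ω ω a a' hb i).2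
  have hlow : ∀ a, 50 ^ (4 * m - K) ≤ ∏ i, wt (r ω a i) := by
    intro a
    have c1 : ∀ i, wt (r ω a i) = 50 ^ (4 - (r ω a i).card) := fun i =>
      if_pos ⟨hω a i, a i, (hr ω a i).1⟩
    have c2 : ∀ i, (r ω a i).card ≤ 4 := fun i =>
      (Finset.card_le_card (hr ω a i).1).trans (dem_mem _).2.2
    have c3 := (h1 _ (hmem ω a)).2
    simp only [(hr ω a _).2, Finset.card_map] at c3
    have c4 : ∑ i, (4 - (r ω a i).card) + ∑ i, (r ω a i).card = 4 * m := by
      rw [← Finset.sum_add_distrib, Finset.sum_congr rfl fun i _ => Nat.sub_add_cancel (c2 i)]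
      simp [mul_comm]
    simp only [c1, Finset.prod_pow_eq_pow_sum]
    exact Nat.pow_le_pow_right (by norm_num) (by omega)
  calc 6 ^ m * 50 ^ (4 * m - K) = ∑ _a : Fin m → Fin 6, 50 ^ (4 * m - K) := by simp
    _ ≤ ∑ a : Fin m → Fin 6, ∏ i, wt (r ω a i) := Finset.sum_le_sum fun a _ => hlow a
    _ = ∑ R ∈ Finset.univ.image (r ω), ∏ i, wt (R i) :=
        (Finset.sum_image (f := fun R : Fin m → Finset (Fin 6) => ∏ i, wt (R i))
          fun a _ a' _ e => hinj e).symm
    _ ≤ ∑ R : Fin m → Finset (Fin 6), ∏ i, wt (R i) :=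
        Finset.sum_le_sum_of_subset (Finset.subset_univ _)
    _ = 13002 ^ m := by rw [← Fintype.sum_pow, sum_wt]

theorem Glued.no_partition_pow [Fintype σ] [DecidableEq σ] (h : Glued φ) {g : ℕ} (hg : 0 < g)
    (hN : 64 ^ (28 * g) * (28 * g * 3) < N) {τ : Type} [Fintype τ] [DecidableEq τ]
    (E : Fin (28 * g) × σ ≃ τ) (b t : Finset τ → Finset τ)
    (h1 : ∀ F ∈ {G : Finset τ | ∀ i, fib (fun s => E (i, s)) G ∈ XG φ}, b F ⊆ F ∧ F ⊆ t F ∧
      t F ∈ {G : Finset τ | ∀ i, fib (fun s => E (i, s)) G ∈ XG φ} ∧ (b F).card ≤ 57 * g)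
    (h2 : ∀ F ∈ {G : Finset τ | ∀ i, fib (fun s => E (i, s)) G ∈ XG φ},
      ∀ G ∈ {G : Finset τ | ∀ i, fib (fun s => E (i, s)) G ∈ XG φ}, b F = b G → t F = t G) :
    False := by
  let pack : (Fin (28 * g) → Finset σ) → Finset τ :=
    fun T => Finset.univ.filter fun x => (E.symm x).2 ∈ T (E.symm x).1
  have hp : ∀ T i, fib (fun s => E (i, s)) (pack T) = T i := by
    intro T i
    ext s
    simp [mem_fib, pack]
  have hmem : ∀ T, (∀ i, T i ∈ XG φ) →
      pack T ∈ {G : Finset τ | ∀ i, fib (fun s => E (i, s)) G ∈ XG φ} := fun T hT i => by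
    rw [hp]; exact hT i
  have hmono : ∀ i, ∀ F G : Finset τ, F ⊆ G →
      fib (fun s => E (i, s)) F ⊆ fib (fun s => E (i, s)) G := fun i F G hFG s hs =>
    (mem_fib (f := fun s => E (i, s))).2 (hFG ((mem_fib (f := fun s => E (i, s))).1 hs))
  have hcard : ∀ F : Finset τ, ∑ i, (fib (fun s => E (i, s)) F).card = F.card := by
    intro F
    simp only [fib, Finset.card_filter]
    rw [← Fintype.sum_prod_type', E.sum_comp fun x => if x ∈ F then 1 else 0]
    simp
  have key := h.count (K := 57 * g) hN (fun T i => fib (fun s => E (i, s)) (b (pack T)))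
    (fun T i => fib (fun s => E (i, s)) (t (pack T))) ?_ ?_
  · have e : 4 * (28 * g) - 57 * g = 55 * g := by omega
    rw [e, pow_mul, pow_mul, pow_mul, ← mul_pow] at key
    exact absurd key (not_le.2 (Nat.pow_lt_pow_left (by norm_num) hg.ne'))
  · intro T hT
    obtain ⟨a1, a2, a3, a4⟩ := h1 _ (hmem T hT)
    refine ⟨fun i => ⟨?_, ?_, a3 i⟩, by rw [hcard]; exact a4⟩
    · rw [← hp T i]; exact hmono i _ _ a1
    · rw [← hp T i]; exact hmono i _ _ a2
  · intro T hT T' hT' e
    have : b (pack T) = b (pack T') := by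
      ext x
      obtain ⟨⟨i, s⟩, rfl⟩ := E.surjective x
      have := congrFun e i
      rw [← mem_fib (f := fun s => E (i, s)), ← mem_fib (f := fun s => E (i, s))]
      exact this ▸ Iff.rfl
    funext i
    rw [h2 _ (hmem T hT) _ (hmem T' hT') this]

end Glue

end Pool.Agent.Lib.MP_7ffbdd_al
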