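import Pool.Agent.Lib.MP_7ffbdd_al.Depth

/-!
Projective dimension of the ideals built by Mayer-Vietoris gluing, and Stanley decompositions as
direct sums of vector spaces.
-/

set_option autoImplicit false

namespace Pool.Agent.Lib.MP_7ffbdd_al

open CategoryTheory CategoryTheory.Abelian MvPolynomial

section Ses

variable {R : Type} [CommRing R]

theorem pd_sup (I J : Ideal R) (n : ℕ)
    (hI : HasProjectiveDimensionLT (ModuleCat.of R I) (n + 1))
    (hJ : HasProjectiveDimensionLT (ModuleCat.of R J) (n + 1))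
    (hIJ : HasProjectiveDimensionLT (ModuleCat.of R (I ⊓ J : Ideal R)) n) :
    HasProjectiveDimensionLT (ModuleCat.of R (I ⊔ J : Ideal R)) (n + 1) := by
  have hP : HasProjectiveDimensionLT (ModuleCat.of R (I × J)) (n + 1) := by
    have hex : Function.Exact (LinearMap.inl R I J) (LinearMap.snd R I J) :=
      Function.Exact.inl_snd
    let S := ModuleCat.shortComplexOfCompEqZero _ _ hex.linearMap_comp_eq_zero
    have hS : S.ShortExact :=
      ModuleCat.shortComplex_shortExact S hex LinearMap.inl_injective LinearMap.snd_surjective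
    exact hS.hasProjectiveDimensionLT_X₂ (n + 1) hI hJ
  let f : (I ⊓ J : Ideal R) →ₗ[R] I × J :=
    LinearMap.prod (Submodule.inclusion inf_le_left) (-Submodule.inclusion inf_le_right)
  let g : I × J →ₗ[R] (I ⊔ J : Ideal R) :=
    LinearMap.coprod (Submodule.inclusion le_sup_left) (Submodule.inclusion le_sup_right)
  have hf : Function.Injective f := by
    intro x y h
    have := congrArg Prod.fst h
    exact Submodule.inclusion_injective _ this
  have hg : Function.Surjective g := by
    rintro ⟨x, hx⟩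
    obtain ⟨a, ha, b, hb, rfl⟩ := Submodule.mem_sup.1 hx
    exact ⟨(⟨a, ha⟩, ⟨b, hb⟩), rfl⟩
  have hex : Function.Exact f g := by
    rintro ⟨⟨a, ha⟩, ⟨b, hb⟩⟩
    constructor
    · intro h
      have h' : a + b = 0 := congrArg Subtype.val h
      have hb' : b = -a := by linear_combination h'
      subst hb'
      refine ⟨⟨a, ha, by simpa using hb⟩, ?_⟩
      ext <;> simp [f]
    · rintro ⟨⟨c, hc⟩, h⟩
      have h1 : c = a := congrArg (fun p : I × J => (p.1 : R)) h
      have h2 : -c = b := congrArg (fun p : I × J => (p.2 : R)) h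
      apply Subtype.ext
      change a + b = 0
      rw [← h1, ← h2, add_neg_cancel]
  let S := ModuleCat.shortComplexOfCompEqZero f g hex.linearMap_comp_eq_zero
  have hS : S.ShortExact := ModuleCat.shortComplex_shortExact S hex hf hg
  exact hS.hasProjectiveDimensionLT_X₃ n hIJ hP

end Ses

section Poly

variable {σ : Type} (K : Type) [Field K] [Fintype σ] [DecidableEq σ]

theorem pd_cxIdeal {k : ℕ} {Δ : Set (Finset σ)} (h : Ler k Δ) :
    HasProjectiveDimensionLT (ModuleCat.of (MvPolynomial σ K) (cxIdeal K Δ)) (k + 1) := by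
  induction h with
  | empty =>
    rw [cxIdeal_empty]
    have : Projective (ModuleCat.of (MvPolynomial σ K) (⊥ : Ideal (MvPolynomial σ K))) :=
      inferInstance
    infer_instance
  | simplex F =>
    rw [cxIdeal_Iic]
    have e := LinearEquiv.toSpanNonzeroSingleton (MvPolynomial σ K) (MvPolynomial σ K)
      (monomial (coInd F) (1 : K)) (by simp)
    have : Module.Free (MvPolynomial σ K) (Ideal.span {monomial (coInd F) (1 : K)}) :=
      Module.Free.of_equiv e
    have : Projective (ModuleCat.of (MvPolynomial σ K)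
      (Ideal.span {monomial (coInd F) (1 : K)})) := inferInstance
    infer_instance
  | succ _ ih => exact hasProjectiveDimensionLT_of_ge _ _ _ (Nat.le_succ _)
  | union h1 h2 _ ih1 ih2 ih3 =>
    rw [cxIdeal_union]
    refine pd_sup _ _ _ ih1 ih2 ?_
    rwa [← cxIdeal_inter K h1.isLowerSet h2.isLowerSet]

theorem cxIdeal_eq_span (Δ : Set (Finset σ)) :
    cxIdeal K Δ = Ideal.span ((fun a => monomial a (1 : K)) '' (coInd '' Δ)) := by
  ext f
  rw [cxIdeal, mem_ideal_span_monomial_image, mem_ideal_span_monomial_image]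
  refine forall₂_congr fun a _ => ⟨?_, ?_⟩
  · rintro ⟨s, hs, hle⟩
    refine ⟨_, ⟨_, hs, rfl⟩, le_trans (fun i => ?_) hle⟩
    rw [coInd_apply]
    split_ifs with hi
    · exact Nat.zero_le _
    · simp only [Finset.mem_compl, not_not, Finsupp.mem_support_iff] at hi
      omega
  · rintro ⟨_, ⟨F, hF, rfl⟩, hle⟩
    exact ⟨coInd F, by rw [Set.mem_ofPred_eq, coInd_support]; exact hF, hle⟩

variable {K}

omit [Fintype σ] in
theorem eq_monomial_of_fine {u : MvPolynomial σ K} {a : σ → ℤ} (hu : u ≠ 0)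
    (h : IsWeightedHomogeneous (fun j => (Pi.single j 1 : σ → ℤ)) u a) :
    ∃ (d : σ →₀ ℕ) (c : K), c ≠ 0 ∧ u = monomial d c := by
  have key : ∀ d : σ →₀ ℕ, coeff d u ≠ 0 → ∀ j, (d j : ℤ) = a j := by
    intro d hd j
    rw [← h hd, Finsupp.weight_apply, Finsupp.sum, Finset.sum_apply]
    simp only [Pi.smul_apply, Pi.single_apply, nsmul_eq_mul, mul_ite, mul_one, mul_zero]
    rw [Finset.sum_ite_eq]
    split_ifs with hj
    · rfl
    · rw [Finsupp.notMem_support_iff.1 hj, Nat.cast_zero]
  obtain ⟨d, hd⟩ := ne_zero_iff.1 hu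
  refine ⟨d, coeff d u, hd, ?_⟩
  ext e
  rw [coeff_monomial]
  split_ifs with hde
  · rw [hde]
  · by_contra hc
    apply hde
    ext j
    have := (key d hd j).trans (key e hc j).symm
    exact_mod_cast this

omit [Fintype σ] [DecidableEq σ] in
theorem monomial_mem_piece {d b : σ →₀ ℕ} {c : K} (hc : c ≠ 0) {Z : Finset σ}
    (hb : b.support ⊆ Z) :
    monomial (d + b) (1 : K) ∈ Submodule.map (LinearMap.mulLeft K (monomial d c))
      (Subalgebra.toSubmodule (supported K (Z : Set σ))) := by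
  refine ⟨monomial b c⁻¹, ?_, ?_⟩
  · change monomial b c⁻¹ ∈ supported K (Z : Set σ)
    rw [mem_supported, vars_monomial (inv_ne_zero hc)]
    exact_mod_cast hb
  · rw [LinearMap.mulLeft_apply, monomial_mul, mul_inv_cancel₀ hc]

omit [Fintype σ] [DecidableEq σ] in
theorem coeff_piece {d a : σ →₀ ℕ} {c : K} {Z : Finset σ} {v : MvPolynomial σ K}
    (hv : v ∈ Submodule.map (LinearMap.mulLeft K (monomial d c))
      (Subalgebra.toSubmodule (supported K (Z : Set σ)))) (ha : coeff a v ≠ 0) :
    ∃ b : σ →₀ ℕ, b.support ⊆ Z ∧ a = d + b := by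
  obtain ⟨f, hf, rfl⟩ := hv
  rw [LinearMap.mulLeft_apply, coeff_monomial_mul'] at ha
  split_ifs at ha with hda
  · refine ⟨a - d, fun j hj => ?_, (add_tsub_cancel_of_le hda).symm⟩
    have h1 : a - d ∈ f.support := mem_support_iff.2 (right_ne_zero_of_mul ha)
    have h2 : j ∈ f.vars := (mem_vars_iff_mem_support j).2 ⟨_, h1, hj⟩
    have h3 : f ∈ supported K (Z : Set σ) := hf
    exact_mod_cast mem_supported.1 h3 h2
  · exact absurd rfl ha

omit [Fintype σ] in
/-- A direct sum decomposition into spaces `u K[Z]` gives a partition of the monomials. -/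
theorem cones_of_directSum {ι : Type} [Finite ι] (I : Ideal (MvPolynomial σ K))
    (u : ι → MvPolynomial σ K) (Z : ι → Finset σ)
    (hu : ∀ i, ∃ a : σ → ℤ, IsWeightedHomogeneous (fun j => (Pi.single j 1 : σ → ℤ)) (u i) a)
    (hind : iSupIndep fun i => Submodule.map (LinearMap.mulLeft K (u i))
      (Subalgebra.toSubmodule (supported K (Z i : Set σ))))
    (hsup : (⨆ i, Submodule.map (LinearMap.mulLeft K (u i))
      (Subalgebra.toSubmodule (supported K (Z i : Set σ)))) = I.restrictScalars K) :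
    ∃ D : Finset ((σ →₀ ℕ) × Finset σ),
      (∀ p ∈ D, ∃ i, u i ≠ 0 ∧ p.2 = Z i) ∧
      (∀ p ∈ D, ∀ b : σ →₀ ℕ, b.support ⊆ p.2 → monomial (p.1 + b) (1 : K) ∈ I) ∧
      ∀ a : σ →₀ ℕ, monomial a (1 : K) ∈ I →
        ∃! p, p ∈ D ∧ ∃ b : σ →₀ ℕ, b.support ⊆ p.2 ∧ a = p.1 + b := by
  classical
  have := Fintype.ofFinite ι
  have h1 : ∀ i, u i ≠ 0 → ∃ (d : σ →₀ ℕ) (c : K), c ≠ 0 ∧ u i = monomial d c := fun i hi => by
    obtain ⟨a, ha⟩ := hu i
    exact eq_monomial_of_fine hi ha
  choose! d c hc hd using h1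
  set V : ι → Submodule K (MvPolynomial σ K) := fun i => Submodule.map (LinearMap.mulLeft K (u i))
      (Subalgebra.toSubmodule (supported K (Z i : Set σ))) with hV
  have hm : ∀ i, u i ≠ 0 → ∀ b : σ →₀ ℕ, b.support ⊆ Z i → monomial (d i + b) (1 : K) ∈ V i := by
    intro i hi b hb
    simp only [hV]
    rw [hd i hi]
    exact monomial_mem_piece (hc i hi) hb
  have hD : ∀ p : (σ →₀ ℕ) × Finset σ,
      p ∈ (Finset.univ.filter fun i => u i ≠ 0).image (fun i => (d i, Z i)) ↔
        ∃ i, u i ≠ 0 ∧ (d i, Z i) = p := fun p => by simp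
  refine ⟨(Finset.univ.filter fun i => u i ≠ 0).image (fun i => (d i, Z i)), fun p hp => ?_,
    fun p hp b hb => ?_, fun a ha => ?_⟩
  · obtain ⟨i, hi, rfl⟩ := (hD p).1 hp
    exact ⟨i, hi, rfl⟩
  · obtain ⟨i, hi, rfl⟩ := (hD p).1 hp
    have h2 : V i ≤ I.restrictScalars K := hsup ▸ le_iSup V i
    exact h2 (hm i hi b hb)
  · obtain ⟨i, v, hv, hav⟩ : ∃ i, ∃ v ∈ V i, coeff a v ≠ 0 := by
      by_contra hcon
      push Not at hcon
      have h2 : (⨆ i, V i) ≤ LinearMap.ker (lcoeff K a) := iSup_le fun i v hv => hcon i v hv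
      have h3 : monomial a (1 : K) ∈ I.restrictScalars K := ha
      rw [← hsup] at h3
      have h4 : coeff a (monomial a (1 : K)) = 0 := h2 h3
      simp at h4
    have hi : u i ≠ 0 := by
      intro h0
      obtain ⟨f, -, rfl⟩ := hv
      simp [h0] at hav
    have hv' := hv
    simp only [hV] at hv'
    rw [hd i hi] at hv'
    obtain ⟨b, hb, e⟩ := coeff_piece hv' hav
    refine ⟨(d i, Z i), ⟨(hD _).2 ⟨i, hi, rfl⟩, b, hb, e⟩, ?_⟩
    rintro p ⟨hp, b', hb', e'⟩
    obtain ⟨j, hj, rfl⟩ := (hD p).1 hp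
    by_cases hij : j = i
    · rw [hij]
    · have m1 := hm i hi b hb
      have m2 := hm j hj b' hb'
      rw [← e] at m1
      rw [← show a = d j + b' from e'] at m2
      have := (Submodule.disjoint_def.1 (hind.pairwiseDisjoint hij)) _ m2 m1
      simp at this

end Poly

end Pool.Agent.Lib.MP_7ffbdd_al
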